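import Pool.Agent.Helper64.BKS.Stmts
import Pool.Agent.Helper81.AbMot.FE

/-!
BKS, module TRA: an open subgroup acts transitively on the primes over a prime of its fixed field.
-/

set_option autoImplicit false

open NumberField
open scoped Pointwise

namespace Pool.Agent.Helper91.BKS

open BKA (Gal Zb Pl q Over Congr)

theorem _root_.BKS.st_TRA : BKS.ST_TRA := by
  intro F _ _ U hU 𝔓 𝔓' h𝔓 h𝔓' hx
  have hcl : IsClosed (U : Set (Gal F)) := U.isClosed_of_isOpen hU
  have hcomp : CompactSpace U := isCompact_iff_compactSpace.1 hcl.isCompact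
  let : TopologicalSpace (𝓞 (AlgebraicClosure F)) := ⊥
  have : DiscreteTopology (𝓞 (AlgebraicClosure F)) := ⟨rfl⟩
  have hcs : ContinuousSMul (Gal F) (𝓞 (AlgebraicClosure F)) := by
    rw [continuousSMul_iff_stabilizer_isOpen]
    intro x
    have h := stabilizer_isOpen_of_isIntegral (K := F) (L := AlgebraicClosure F)
      (x : AlgebraicClosure F)
    have e : (MulAction.stabilizer (Gal F) x : Set (Gal F))
        = (MulAction.stabilizer (Gal F) (x : AlgebraicClosure F) : Set (Gal F)) := by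
      ext g
      constructor
      · intro hg
        exact congrArg (fun z : 𝓞 (AlgebraicClosure F) => (z : AlgebraicClosure F)) hg
      · intro hg
        exact RingOfIntegers.ext hg
    rw [e]
    exact h
  have hcsU : ContinuousSMul U (𝓞 (AlgebraicClosure F)) := by
    refine ⟨?_⟩
    have h1 : Continuous fun p : U × 𝓞 (AlgebraicClosure F) => ((p.1 : Gal F), p.2) :=
      (continuous_subtype_val.comp continuous_fst).prodMk continuous_snd
    exact hcs.continuous_smul.comp h1
  let P : Ideal (𝓞 (AlgebraicClosure F)) := 𝔓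
  let Q : Ideal (𝓞 (AlgebraicClosure F)) := 𝔓'
  have hP : P.IsPrime := h𝔓
  have hQ : Q.IsPrime := h𝔓'
  have hx' : ∀ x : 𝓞 (AlgebraicClosure F), (∀ σ ∈ U, σ (x : AlgebraicClosure F) = x) →
      (x ∈ P ↔ x ∈ Q) := fun x => hx x
  have hu : P.under (FixedPoints.subalgebra ℤ (𝓞 (AlgebraicClosure F)) U) =
      Q.under (FixedPoints.subalgebra ℤ (𝓞 (AlgebraicClosure F)) U) := by
    ext y
    rw [Ideal.under_def, Ideal.mem_comap, Ideal.under_def, Ideal.mem_comap]
    refine hx' _ (fun σ hσ => ?_)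
    have h2 := y.2 ⟨σ, hσ⟩
    exact congrArg (fun z : 𝓞 (AlgebraicClosure F) => (z : AlgebraicClosure F)) h2
  have hinv : Algebra.IsInvariant (FixedPoints.subalgebra ℤ (𝓞 (AlgebraicClosure F)) U)
      (𝓞 (AlgebraicClosure F)) U := ⟨fun b hb => ⟨⟨b, hb⟩, rfl⟩⟩
  obtain ⟨g, hg⟩ := Algebra.IsInvariant.exists_smul_of_under_eq_of_profinite
    (A := FixedPoints.subalgebra ℤ (𝓞 (AlgebraicClosure F)) U)
    (B := 𝓞 (AlgebraicClosure F)) (G := U) P Q hu
  refine ⟨(g : Gal F), g.2, ?_⟩
  have key : ∀ x y : 𝓞 (AlgebraicClosure F),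
      (y : AlgebraicClosure F) = (g : Gal F) (x : AlgebraicClosure F) → (x ∈ P ↔ y ∈ Q) := by
    intro x y hxy
    have h1 : y = g • x := RingOfIntegers.ext hxy
    rw [h1, hg, Ideal.smul_mem_pointwise_smul_iff]
  exact fun x y hxy => key x y hxy

end Pool.Agent.Helper91.BKS
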